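import Mathlib

/-! The dense cyclic order on `ℚ ∪ {∞}` and its automorphisms. -/

namespace Pool.Agent.Q332.VC

/-- The points of the cycle: the rational numbers and a point at infinity. -/
abbrev K : Type := WithTop ℚ

/-- The cyclic order: `x, y, z` are met in this order when going round. -/
def cyc (x y z : K) : Prop := (x < y ∧ y < z) ∨ (y < z ∧ z < x) ∨ (z < x ∧ x < y)

theorem cyc_rot {x y z : K} (h : cyc x y z) : cyc y z x := by
  rcases h with h | h | h
  · exact Or.inr (Or.inr h)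
  · exact Or.inl h
  · exact Or.inr (Or.inl h)

theorem cyc_asymm {x y z : K} (h : cyc x y z) : ¬ cyc x z y := by
  unfold cyc at *
  intro h'
  rcases h with ⟨h1, h2⟩ | ⟨h1, h2⟩ | ⟨h1, h2⟩ <;> rcases h' with ⟨h3, h4⟩ | ⟨h3, h4⟩ | ⟨h3, h4⟩ <;>
    first
    | exact lt_asymm h1 h3
    | exact lt_asymm h1 h4
    | exact lt_asymm h2 h3
    | exact lt_asymm h2 h4

theorem cyc_ne {x y z : K} (h : cyc x y z) : x ≠ y ∧ y ≠ z ∧ z ≠ x := by
  unfold cyc at h
  rcases h with ⟨h1, h2⟩ | ⟨h1, h2⟩ | ⟨h1, h2⟩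
  · exact ⟨h1.ne, h2.ne, (h1.trans h2).ne'⟩
  · exact ⟨(h1.trans h2).ne', h1.ne, h2.ne⟩
  · exact ⟨h2.ne, (h1.trans h2).ne', h1.ne⟩

theorem cyc_total {x y z : K} (h1 : x ≠ y) (h2 : y ≠ z) (h3 : z ≠ x) : cyc x y z ∨ cyc x z y := by
  unfold cyc
  rcases lt_or_gt_of_ne h1 with a | a <;> rcases lt_or_gt_of_ne h2 with b | b <;>
    rcases lt_or_gt_of_ne h3 with c | c <;> tauto

/-- Automorphisms of the cycle. -/
def IsC (e : Equiv.Perm K) : Prop := ∀ x y z, cyc (e x) (e y) (e z) ↔ cyc x y z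

theorem IsC.of_imp {e : Equiv.Perm K} (h : ∀ x y z, cyc x y z → cyc (e x) (e y) (e z)) : IsC e := by
  intro x y z
  refine ⟨fun h' => ?_, h x y z⟩
  obtain ⟨n1, n2, n3⟩ := cyc_ne h'
  rcases cyc_total (x := x) (y := y) (z := z) (fun hh => n1 (by rw [hh])) (fun hh => n2 (by rw [hh]))
    (fun hh => n3 (by rw [hh])) with h1 | h1
  · exact h1
  · exact absurd h' (cyc_asymm (h _ _ _ h1))

theorem IsC.of_lt {e : Equiv.Perm K} (h : ∀ x y z : K, x < y → y < z → cyc (e x) (e y) (e z)) :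
    IsC e := by
  refine IsC.of_imp fun x y z hc => ?_
  rcases hc with ⟨h1, h2⟩ | ⟨h1, h2⟩ | ⟨h1, h2⟩
  · exact h _ _ _ h1 h2
  · exact cyc_rot (cyc_rot (h _ _ _ h1 h2))
  · exact cyc_rot (h _ _ _ h1 h2)

theorem IsC.trans {e f : Equiv.Perm K} (he : IsC e) (hf : IsC f) : IsC (e.trans f) := by
  intro x y z
  exact (hf _ _ _).trans (he _ _ _)

theorem IsC.symm {e : Equiv.Perm K} (he : IsC e) : IsC e.symm := by
  intro x y z
  rw [← he]
  simp

theorem IsC.refl : IsC (Equiv.refl K) := fun _ _ _ => Iff.rfl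

theorem IsC.ofOrder (f : ℚ ≃o ℚ) : IsC f.withTopCongr.toEquiv := by
  refine IsC.of_lt fun x y z h1 h2 => Or.inl ?_
  exact ⟨f.withTopCongr.lt_iff_lt.2 h1, f.withTopCongr.lt_iff_lt.2 h2⟩

/-- `x ↦ -1/x`, exchanging `0` and `∞`. -/
def rfun : K → K
  | ⊤ => ((0 : ℚ) : K)
  | (x : ℚ) => if x = 0 then ⊤ else ((-x⁻¹ : ℚ) : K)

theorem rfun_top : rfun ⊤ = ((0 : ℚ) : K) := rfl

theorem rfun_coe (x : ℚ) : rfun (x : K) = if x = 0 then ⊤ else ((-x⁻¹ : ℚ) : K) := rfl

theorem rfun_rfun (x : K) : rfun (rfun x) = x := by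
  induction x using WithTop.recTopCoe with
  | top => rw [rfun_top, rfun_coe]; simp
  | coe x =>
    by_cases hx : x = 0
    · subst hx
      rw [rfun_coe]
      simp [rfun_top]
    · rw [rfun_coe, if_neg hx, rfun_coe, if_neg (by simpa using hx)]
      congr 1
      field_simp

/-- The rotation `x ↦ -1/x`. -/
def rho : Equiv.Perm K := ⟨rfun, rfun, rfun_rfun, rfun_rfun⟩

theorem rho_apply (x : K) : rho x = rfun x := rfl

theorem neg_inv_lt {x y : ℚ} (h : x < y) (hs : y < 0 ∨ 0 < x) : -x⁻¹ < -y⁻¹ := by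
  rcases hs with hs | hs
  · have hx : x < 0 := h.trans hs
    rw [neg_lt_neg_iff]
    exact (inv_lt_inv_of_neg hs hx).2 h
  · rw [neg_lt_neg_iff]
    exact (inv_lt_inv₀ (hs.trans h) hs).2 h

theorem rho_isC : IsC rho := by
  refine IsC.of_lt fun x y z h1 h2 => ?_
  have hx : x ≠ ⊤ := (h1.trans_le le_top).ne
  have hy : y ≠ ⊤ := (h2.trans_le le_top).ne
  lift x to ℚ using hx
  lift y to ℚ using hy
  rw [WithTop.coe_lt_coe] at h1
  simp only [rho_apply]
  induction z using WithTop.recTopCoe with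
  | top =>
    rw [rfun_top, rfun_coe, rfun_coe]
    unfold cyc
    rcases lt_trichotomy x 0 with hx | hx | hx
    · rcases lt_trichotomy y 0 with hy | hy | hy
      · rw [if_neg hx.ne, if_neg hy.ne]
        right; right
        rw [WithTop.coe_lt_coe, WithTop.coe_lt_coe]
        exact ⟨by have := inv_lt_zero.2 hx; linarith, neg_inv_lt h1 (Or.inl hy)⟩
      · rw [if_neg hx.ne, if_pos hy]
        right; right
        rw [WithTop.coe_lt_coe]
        exact ⟨by have := inv_lt_zero.2 hx; linarith, WithTop.coe_lt_top _⟩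
      · rw [if_neg hx.ne, if_neg hy.ne']
        right; left
        rw [WithTop.coe_lt_coe, WithTop.coe_lt_coe]
        exact ⟨by have := inv_pos.2 hy; linarith, by have := inv_lt_zero.2 hx; linarith⟩
    · rw [if_pos hx, if_neg (by linarith [hx] : (0:ℚ) < y).ne']
      right; left
      rw [WithTop.coe_lt_coe]
      exact ⟨by have := inv_pos.2 (by linarith : (0:ℚ) < y); linarith, WithTop.coe_lt_top _⟩
    · rw [if_neg hx.ne', if_neg (hx.trans h1).ne']
      left
      rw [WithTop.coe_lt_coe, WithTop.coe_lt_coe]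
      exact ⟨neg_inv_lt h1 (Or.inr hx), by have := inv_pos.2 (hx.trans h1); linarith⟩
  | coe z =>
    rw [WithTop.coe_lt_coe] at h2
    rw [rfun_coe, rfun_coe, rfun_coe]
    unfold cyc
    rcases lt_trichotomy z 0 with hz | hz | hz
    · have hy := h2.trans hz
      have hx := h1.trans hy
      rw [if_neg hx.ne, if_neg hy.ne, if_neg hz.ne]
      left
      rw [WithTop.coe_lt_coe, WithTop.coe_lt_coe]
      exact ⟨neg_inv_lt h1 (Or.inl hy), neg_inv_lt h2 (Or.inl hz)⟩
    · have hy : y < 0 := h2.trans_eq hz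
      have hx := h1.trans hy
      rw [if_neg hx.ne, if_neg hy.ne, if_pos hz]
      left
      rw [WithTop.coe_lt_coe]
      exact ⟨neg_inv_lt h1 (Or.inl hy), WithTop.coe_lt_top _⟩
    · rcases lt_trichotomy y 0 with hy | hy | hy
      · have hx := h1.trans hy
        rw [if_neg hx.ne, if_neg hy.ne, if_neg hz.ne']
        right; right
        rw [WithTop.coe_lt_coe, WithTop.coe_lt_coe]
        exact ⟨by have := inv_pos.2 hz; have := inv_lt_zero.2 hx; linarith,
          neg_inv_lt h1 (Or.inl hy)⟩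
      · have hx : x < 0 := h1.trans_eq hy
        rw [if_neg hx.ne, if_pos hy, if_neg hz.ne']
        right; right
        rw [WithTop.coe_lt_coe]
        exact ⟨by have := inv_pos.2 hz; have := inv_lt_zero.2 hx; linarith, WithTop.coe_lt_top _⟩
      · rcases lt_trichotomy x 0 with hx | hx | hx
        · rw [if_neg hx.ne, if_neg hy.ne', if_neg hz.ne']
          right; left
          rw [WithTop.coe_lt_coe, WithTop.coe_lt_coe]
          exact ⟨neg_inv_lt h2 (Or.inr hy),
            by have := inv_pos.2 hz; have := inv_lt_zero.2 hx; linarith⟩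
        · rw [if_pos hx, if_neg hy.ne', if_neg hz.ne']
          right; left
          rw [WithTop.coe_lt_coe]
          exact ⟨neg_inv_lt h2 (Or.inr hy), WithTop.coe_lt_top _⟩
        · rw [if_neg hx.ne', if_neg hy.ne', if_neg hz.ne']
          left
          rw [WithTop.coe_lt_coe, WithTop.coe_lt_coe]
          exact ⟨neg_inv_lt h1 (Or.inr hx), neg_inv_lt h2 (Or.inr hy)⟩

/-- Every point can be moved to infinity. -/
theorem exists_toTop (a : K) : ∃ e : Equiv.Perm K, IsC e ∧ e a = ⊤ := by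
  induction a using WithTop.recTopCoe with
  | top => exact ⟨Equiv.refl K, IsC.refl, rfl⟩
  | coe a =>
    refine ⟨(OrderIso.addRight (-a)).withTopCongr.toEquiv.trans rho,
      (IsC.ofOrder _).trans rho_isC, ?_⟩
    have : (OrderIso.addRight (-a)).withTopCongr.toEquiv (a : K) = ((a + -a : ℚ) : K) := rfl
    rw [Equiv.trans_apply, this, rho_apply, add_neg_cancel, rfun_coe, if_pos rfl]

/-- Moving `x` to `x'` below `s₀` and fixing everything from `s₀` on. -/
theorem exists_scale {x x' s₀ : ℚ} (hx : x < s₀) (hx' : x' < s₀) :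
    ∃ f : ℚ ≃o ℚ, f x = x' ∧ ∀ s, s₀ ≤ s → f s = s := by
  set c : ℚ := (s₀ - x') / (s₀ - x) with hc
  have hc0 : 0 < c := div_pos (by linarith) (by linarith)
  let F : ℚ → ℚ := fun q => if q < s₀ then s₀ - (s₀ - q) * c else q
  have hF1 : ∀ q, q < s₀ → F q = s₀ - (s₀ - q) * c := fun q hq => if_pos hq
  have hF2 : ∀ q, ¬ q < s₀ → F q = q := fun q hq => if_neg hq
  have hmono : StrictMono F := by
    intro p q hpq
    by_cases hp : p < s₀
    · by_cases hq : q < s₀
      · rw [hF1 p hp, hF1 q hq]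
        have := mul_lt_mul_of_pos_right (show s₀ - q < s₀ - p by linarith) hc0
        linarith
      · rw [hF1 p hp, hF2 q hq]
        have := mul_pos (show 0 < s₀ - p by linarith) hc0
        push Not at hq
        linarith
    · have hq : ¬ q < s₀ := by push Not at hp ⊢; linarith
      rw [hF2 p hp, hF2 q hq]
      exact hpq
  have hsurj : Function.Surjective F := by
    intro y
    by_cases hy : y < s₀
    · refine ⟨s₀ - (s₀ - y) / c, ?_⟩
      have h1 : 0 < (s₀ - y) / c := div_pos (by linarith) hc0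
      rw [hF1 _ (by linarith)]
      field_simp
      ring
    · exact ⟨y, hF2 y hy⟩
  refine ⟨hmono.orderIsoOfSurjective F hsurj, ?_, ?_⟩
  · show F x = x'
    rw [hF1 x hx, hc]
    have : s₀ - x ≠ 0 := by linarith [hx] |> fun h : 0 < s₀ - x => h.ne'
    field_simp
    ring
  · intro s hs
    exact hF2 s (not_lt.2 hs)

end Pool.Agent.Q332.VC
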