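import Pool.Agent.Q332.VC.Cyc

/-! Homogeneity of the dense cyclic order. -/

namespace Pool.Agent.Q332.VC

theorem ofOrder_coe (f : ℚ ≃o ℚ) (x : ℚ) :
    (f.withTopCongr.toEquiv : Equiv.Perm K) (x : K) = ((f x : ℚ) : K) := rfl

theorem ofOrder_top (f : ℚ ≃o ℚ) :
    (f.withTopCongr.toEquiv : Equiv.Perm K) ⊤ = ⊤ := rfl

theorem exists_trans (x y : K) : ∃ g : Equiv.Perm K, IsC g ∧ g x = y := by
  obtain ⟨e, he, hex⟩ := exists_toTop x
  obtain ⟨f, hf, hfy⟩ := exists_toTop y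
  refine ⟨e.trans f.symm, he.trans hf.symm, ?_⟩
  rw [Equiv.trans_apply, hex, ← hfy, Equiv.symm_apply_apply]

/-- Three rational numbers can be moved to `0, 1, 2`. -/
theorem exists_three {p q r : ℚ} (h1 : p < q) (h2 : q < r) :
    ∃ f : ℚ ≃o ℚ, f p = 0 ∧ f q = 1 ∧ f r = 2 := by
  have hqr : 0 < r - q := by linarith
  let B : ℚ ≃o ℚ := (OrderIso.addRight (-q)).trans
    ((OrderIso.mulRight₀ (r - q)⁻¹ (inv_pos.2 hqr)).trans (OrderIso.addRight 1))
  have hB : ∀ x, B x = (x + -q) * (r - q)⁻¹ + 1 := fun x => rfl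
  have hBq : B q = 1 := by rw [hB]; simp
  have hBr : B r = 2 := by
    rw [hB, ← sub_eq_add_neg, mul_inv_cancel₀ hqr.ne']
    norm_num
  have hBp : B p < 1 := by rw [← hBq]; exact B.lt_iff_lt.2 h1
  obtain ⟨f, hf1, hf2⟩ := exists_scale (x := B p) (x' := 0) (s₀ := 1) hBp (by norm_num)
  refine ⟨B.trans f, ?_, ?_, ?_⟩
  · exact hf1
  · show f (B q) = 1
    rw [hBq]; exact hf2 1 le_rfl
  · show f (B r) = 2
    rw [hBr]; exact hf2 2 (by norm_num)

/-- A rotation of order four. -/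
theorem exists_rot : ∃ g : Equiv.Perm K, IsC g ∧ g ⊤ = ((0 : ℚ) : K) ∧
    g ((0 : ℚ) : K) = ((1 : ℚ) : K) ∧ g ((1 : ℚ) : K) = ((2 : ℚ) : K) ∧ g ((2 : ℚ) : K) = ⊤ := by
  let a : Equiv.Perm K := (OrderIso.addRight (-2 : ℚ)).withTopCongr.toEquiv
  let m : Equiv.Perm K := (OrderIso.mulRight₀ (2 : ℚ) (by norm_num)).withTopCongr.toEquiv
  have ha : ∀ x : ℚ, a (x : K) = ((x + -2 : ℚ) : K) := fun x => rfl
  have hm : ∀ x : ℚ, m (x : K) = ((x * 2 : ℚ) : K) := fun x => rfl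
  have hat : a ⊤ = ⊤ := rfl
  have hmt : m ⊤ = ⊤ := rfl
  refine ⟨a.trans (rho.trans m), (IsC.ofOrder _).trans (rho_isC.trans (IsC.ofOrder _)),
    ?_, ?_, ?_, ?_⟩
  · rw [Equiv.trans_apply, Equiv.trans_apply, hat, rho_apply, rfun_top, hm]
    norm_num
  · rw [Equiv.trans_apply, Equiv.trans_apply, ha, rho_apply, rfun_coe, if_neg (by norm_num), hm]
    norm_num
  · rw [Equiv.trans_apply, Equiv.trans_apply, ha, rho_apply, rfun_coe, if_neg (by norm_num), hm]
    norm_num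
  · rw [Equiv.trans_apply, Equiv.trans_apply, ha, rho_apply, rfun_coe, if_pos (by norm_num), hmt]

theorem cyc_top_right {x y : K} (h : cyc x y ⊤) : x < y := by
  unfold cyc at h
  rcases h with ⟨h1, _⟩ | ⟨_, h2⟩ | ⟨h1, _⟩
  · exact h1
  · exact absurd h2 not_top_lt
  · exact absurd h1 not_top_lt

theorem cyc_top_left {x y : K} (h : cyc ⊤ x y) : x < y := cyc_top_right (cyc_rot h)

theorem cyc_top_left_iff {x y : K} : cyc ⊤ x y ↔ x < y ∧ y ≠ ⊤ := by
  constructor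
  · intro h
    exact ⟨cyc_top_left h, (cyc_ne h).2.2⟩
  · rintro ⟨h1, h2⟩
    exact Or.inr (Or.inl ⟨h1, lt_top_iff_ne_top.2 h2⟩)

/-- Four points in cyclic order can be rotated. -/
theorem exists_rotate {p q r s : K} (h1 : cyc p q r) (h2 : cyc r s p) :
    ∃ g : Equiv.Perm K, IsC g ∧ g p = q ∧ g q = r ∧ g r = s ∧ g s = p := by
  obtain ⟨e, he, hes⟩ := exists_toTop s
  have k1 := (he _ _ _).2 h1
  have k2 := (he _ _ _).2 h2
  rw [hes] at k2
  have l1 : e p < e r := cyc_top_left (cyc_rot k2)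
  have hrt : e r ≠ ⊤ := (cyc_ne k2).1
  have l2 : e p < e q ∧ e q < e r := by
    unfold cyc at k1
    rcases k1 with h | ⟨_, h⟩ | ⟨h, _⟩
    · exact h
    · exact absurd h (lt_asymm l1)
    · exact absurd h (lt_asymm l1)
  have hqt : e q ≠ ⊤ := (l2.2.trans_le le_top).ne
  have hpt : e p ≠ ⊤ := (l2.1.trans_le le_top).ne
  obtain ⟨r', hr'⟩ := WithTop.ne_top_iff_exists.1 hrt
  obtain ⟨q', hq'⟩ := WithTop.ne_top_iff_exists.1 hqt
  obtain ⟨p', hp'⟩ := WithTop.ne_top_iff_exists.1 hpt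
  have m1 : p' < q' := by rw [← WithTop.coe_lt_coe, hp', hq']; exact l2.1
  have m2 : q' < r' := by rw [← WithTop.coe_lt_coe, hr', hq']; exact l2.2
  obtain ⟨f, f1, f2, f3⟩ := exists_three m1 m2
  obtain ⟨g, hg, g1, g2, g3, g4⟩ := exists_rot
  set F : Equiv.Perm K := e.trans f.withTopCongr.toEquiv with hF
  have hFC : IsC F := he.trans (IsC.ofOrder f)
  have Fp : F p = ((0 : ℚ) : K) := by rw [hF, Equiv.trans_apply, ← hp', ofOrder_coe, f1]
  have Fq : F q = ((1 : ℚ) : K) := by rw [hF, Equiv.trans_apply, ← hq', ofOrder_coe, f2]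
  have Fr : F r = ((2 : ℚ) : K) := by rw [hF, Equiv.trans_apply, ← hr', ofOrder_coe, f3]
  have Fs : F s = ⊤ := by rw [hF, Equiv.trans_apply, hes, ofOrder_top]
  refine ⟨F.trans (g.trans F.symm), hFC.trans (hg.trans hFC.symm), ?_, ?_, ?_, ?_⟩
  · rw [Equiv.trans_apply, Equiv.trans_apply, Fp, g2, ← Fq, Equiv.symm_apply_apply]
  · rw [Equiv.trans_apply, Equiv.trans_apply, Fq, g3, ← Fr, Equiv.symm_apply_apply]
  · rw [Equiv.trans_apply, Equiv.trans_apply, Fr, g4, ← Fs, Equiv.symm_apply_apply]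
  · rw [Equiv.trans_apply, Equiv.trans_apply, Fs, g1, ← Fp, Equiv.symm_apply_apply]

theorem exists_bound (S : Finset K) (w : ℚ) (h : ∀ s ∈ S, (w : K) < s) :
    ∃ s₀ : ℚ, w < s₀ ∧ ∀ s ∈ S, (s₀ : K) ≤ s := by
  classical
  induction S using Finset.induction_on with
  | empty => exact ⟨w + 1, by linarith, by simp⟩
  | insert t S _ ih =>
    obtain ⟨s₀, h1, h2⟩ := ih fun s hs => h s (Finset.mem_insert_of_mem hs)
    have ht := h t (Finset.mem_insert_self _ _)
    induction t using WithTop.recTopCoe with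
    | top =>
      refine ⟨s₀, h1, fun s hs => ?_⟩
      rcases Finset.mem_insert.1 hs with rfl | hs
      · exact le_top
      · exact h2 s hs
    | coe t =>
      rw [WithTop.coe_lt_coe] at ht
      refine ⟨min s₀ t, lt_min h1 ht, fun s hs => ?_⟩
      rcases Finset.mem_insert.1 hs with rfl | hs
      · rw [WithTop.coe_le_coe]
        exact min_le_right _ _
      · refine le_trans ?_ (h2 s hs)
        rw [WithTop.coe_le_coe]
        exact min_le_left _ _

/-- Two points outside a finite set with the same predecessor in the set are conjugate over it. -/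
theorem exists_conj (A : Finset K) {a x x' : K} (ha : a ∈ A) (hx : x ∉ A) (hx' : x' ∉ A)
    (h : ∀ c ∈ A, ¬ cyc a c x) (h' : ∀ c ∈ A, ¬ cyc a c x') :
    ∃ g : Equiv.Perm K, IsC g ∧ (∀ c ∈ A, g c = c) ∧ g x = x' := by
  classical
  obtain ⟨e, he, hea⟩ := exists_toTop a
  have key : ∀ y : K, y ∉ A → (∀ c ∈ A, ¬ cyc a c y) → e y ≠ ⊤ ∧ ∀ c ∈ A, e y < e c := by
    intro y hy hyc
    have h1 : e y ≠ ⊤ := by
      intro h2
      rw [← hea] at h2
      exact hy (by rw [e.injective h2]; exact ha)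
    refine ⟨h1, fun c hc => ?_⟩
    have h2 : ¬ (e c < e y ∧ e y ≠ ⊤) := by
      rw [← cyc_top_left_iff, ← hea, he]
      exact hyc c hc
    have h3 : ¬ e c < e y := fun h4 => h2 ⟨h4, h1⟩
    refine lt_of_le_of_ne (not_lt.1 h3) fun h4 => hy ?_
    rw [e.injective h4]
    exact hc
  obtain ⟨k1, k2⟩ := key x hx h
  obtain ⟨k1', k2'⟩ := key x' hx' h'
  obtain ⟨u, hu⟩ := WithTop.ne_top_iff_exists.1 k1
  obtain ⟨u', hu'⟩ := WithTop.ne_top_iff_exists.1 k1'
  obtain ⟨s₀, h1, h2⟩ := exists_bound (A.image e) (max u u') (by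
    intro s hs
    obtain ⟨c, hc, rfl⟩ := Finset.mem_image.1 hs
    have m1 := k2 c hc
    have m2 := k2' c hc
    rw [← hu] at m1
    rw [← hu'] at m2
    rcases max_choice u u' with hm | hm <;> rw [hm] <;> assumption)
  obtain ⟨f, f1, f2⟩ := exists_scale (x := u) (x' := u') (s₀ := s₀)
    (lt_of_le_of_lt (le_max_left _ _) h1) (lt_of_le_of_lt (le_max_right _ _) h1)
  refine ⟨e.trans (f.withTopCongr.toEquiv.trans e.symm),
    he.trans ((IsC.ofOrder f).trans he.symm), fun c hc => ?_, ?_⟩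
  · rw [Equiv.trans_apply, Equiv.trans_apply, Equiv.symm_apply_eq]
    have h3 := h2 (e c) (Finset.mem_image_of_mem _ hc)
    generalize e c = d at h3
    induction d using WithTop.recTopCoe with
    | top => rfl
    | coe d => rw [ofOrder_coe, f2 d (WithTop.coe_le_coe.1 h3)]
  · rw [Equiv.trans_apply, Equiv.trans_apply, Equiv.symm_apply_eq, ← hu, ofOrder_coe, f1, hu']

/-- The predecessor of a point in a finite nonempty set. -/
theorem exists_pred (A : Finset K) (hA : A.Nonempty) {x : K} :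
    ∃ a ∈ A, ∀ c ∈ A, ¬ cyc a c x := by
  obtain ⟨e, he, hex⟩ := exists_toTop x
  obtain ⟨a, ha, hmax⟩ := Finset.exists_max_image A e hA
  refine ⟨a, ha, fun c hc h => ?_⟩
  rw [← he, hex] at h
  exact absurd (cyc_top_right h) (not_lt.2 (hmax c hc))

/-- A new point just after `x`, conjugate to `x` over a finite set containing `y`. -/
theorem exists_next (A : Finset K) {x y : K} (hy : y ∈ A) (hx : x ∉ A) :
    ∃ q, q ∉ A ∧ cyc x q y ∧ ∃ g : Equiv.Perm K, IsC g ∧ (∀ c ∈ A, g c = c) ∧ g x = q := by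
  obtain ⟨e, he, hex⟩ := exists_toTop x
  obtain ⟨a, ha, hmax⟩ := Finset.exists_max_image A e ⟨y, hy⟩
  obtain ⟨b, hb, hmin⟩ := Finset.exists_min_image A e ⟨y, hy⟩
  have hbt : e b ≠ ⊤ := by
    intro h
    rw [← hex] at h
    exact hx (by rw [← e.injective h]; exact hb)
  obtain ⟨m, hm⟩ := WithTop.ne_top_iff_exists.1 hbt
  set q : K := e.symm ((m - 1 : ℚ) : K) with hq
  have heq : e q = ((m - 1 : ℚ) : K) := by rw [hq, Equiv.apply_symm_apply]
  have hlt : ∀ c ∈ A, e q < e c := by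
    intro c hc
    refine lt_of_lt_of_le ?_ (hmin c hc)
    rw [heq, ← hm, WithTop.coe_lt_coe]
    linarith
  have hqA : q ∉ A := fun h => lt_irrefl _ (hlt q h)
  have hyt : e y ≠ ⊤ := by
    intro h
    rw [← hex] at h
    exact hx (by rw [← e.injective h]; exact hy)
  refine ⟨q, hqA, ?_, ?_⟩
  · rw [← he, hex, cyc_top_left_iff]
    exact ⟨hlt y hy, hyt⟩
  · refine exists_conj A ha hx hqA (fun c hc h => ?_) (fun c hc h => ?_)
    · rw [← he, hex] at h
      exact absurd (cyc_top_right h) (not_lt.2 (hmax c hc))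
    · rw [← he] at h
      rcases h with ⟨h1, h2⟩ | ⟨h1, h2⟩ | ⟨h1, h2⟩
      · exact lt_asymm h2 (hlt c hc)
      · exact lt_asymm h1 (hlt c hc)
      · exact absurd h2 (not_lt.2 (hmax c hc))

end Pool.Agent.Q332.VC
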