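import Pool.Agent.Q332.VC.Model

/-! Definitions: independence dimension, weak VC-minimality, dp-minimality and VC-density of a
complete theory, and the language with one ternary relation symbol. Statements about the monster
model are expressed by quantifying over all models (for complete theories this is the same). -/

open FirstOrder FirstOrder.Language

namespace Pool.Agent.Q332.VC

section general

variable {L : FirstOrder.Language.{0, 0}}

/-- A family of subsets of `X` is independent: for every choice of a side for each member, the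
chosen sides have a common point. -/
def Indep {X : Type} (𝒜 : Set (Set X)) : Prop :=
  ∀ s : Set X → Bool, (⋂ B ∈ 𝒜, if s B then B else Bᶜ).Nonempty

/-- The set `φ(N; b)` of the `k`-tuples `a` of `N` with `φ(a; b)`. -/
def inst {k : ℕ} {β N : Type} [L.Structure N] (φ : L.Formula (Fin k ⊕ β)) (b : β → N) :
    Set (Fin k → N) := {a | φ.Realize (Sum.elim a b)}

/-- The independence dimension of `φ(x; y)` in `T` is at most `d`: in every model, every
independent family of sets of the form `φ(N; b)` has at most `d` members. -/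
def IndepDimLE (T : L.Theory) {k m : ℕ} (φ : L.Formula (Fin k ⊕ Fin m)) (d : ℕ) : Prop :=
  ∀ (N : Type) [L.Structure N] [Nonempty N] [N ⊨ T] (𝒜 : Set (Set (Fin k → N))),
    𝒜 ⊆ Set.range (fun b : Fin m → N => inst φ b) → Indep 𝒜 → 𝒜.encard ≤ d

/-- Boolean combinations of (finitely many) members of a family of sets. -/
inductive BoolComb {X : Type} (𝒢 : Set (Set X)) : Set X → Prop
  | basic {B : Set X} : B ∈ 𝒢 → BoolComb 𝒢 B
  | univ : BoolComb 𝒢 Set.univ
  | compl {B : Set X} : BoolComb 𝒢 B → BoolComb 𝒢 Bᶜ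
  | inter {B C : Set X} : BoolComb 𝒢 B → BoolComb 𝒢 C → BoolComb 𝒢 (B ∩ C)

/-- `T` is weakly VC-minimal: every `φ(x; b)`, `x` a single variable, is equivalent to a Boolean
combination of instances `ψ(x; c)` of formulas `ψ(x; z)` of independence dimension at most `1`. -/
def WeaklyVCMinimal (T : L.Theory) : Prop :=
  ∀ (N : Type) [L.Structure N] [Nonempty N] [N ⊨ T] (m : ℕ) (φ : L.Formula (Fin 1 ⊕ Fin m))
    (b : Fin m → N),
    BoolComb {D | ∃ (l : ℕ) (ψ : L.Formula (Fin 1 ⊕ Fin l)) (c : Fin l → N),
      IndepDimLE T ψ 1 ∧ D = inst ψ c} (inst φ b)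

/-- `T` is dp-minimal: no model has formulas `φ(x; y)`, `ψ(x; z)` and sequences `b`, `c` such that
for all `i, j` the set of `φ(x; b i)`, `ψ(x; c j)`, `¬ φ(x; b k)` (`k ≠ i`) and
`¬ ψ(x; c k)` (`k ≠ j`) is consistent (finitely satisfiable in the model). -/
def DpMinimal (T : L.Theory) : Prop :=
  ∀ (N : Type) [L.Structure N] [Nonempty N] [N ⊨ T] (m l : ℕ) (φ : L.Formula (Fin 1 ⊕ Fin m))
    (ψ : L.Formula (Fin 1 ⊕ Fin l)) (b : ℕ → Fin m → N) (c : ℕ → Fin l → N),
    ¬ ∀ (i j : ℕ) (F : Finset ℕ), ∃ a : Fin 1 → N, a ∈ inst φ (b i) ∧ a ∈ inst ψ (c j) ∧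
      (∀ k ∈ F, k ≠ i → a ∉ inst φ (b k)) ∧ (∀ k ∈ F, k ≠ j → a ∉ inst ψ (c k))

/-- The number of complete `φ`-types over `B`: a type is recorded by the set of the `b` in `B`
for which it contains `φ(x; b)`. -/
noncomputable def typeCount {k m : ℕ} {N : Type} [L.Structure N] (φ : L.Formula (Fin k ⊕ Fin m))
    (B : Set (Fin m → N)) : ℕ :=
  Set.ncard {p : Set (Fin m → N) | ∃ a : Fin k → N, p = {b | b ∈ B ∧ a ∈ inst φ b}}

/-- The dual shatter function of `φ` in `T`: the maximum of the number of complete `φ`-types over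
parameter sets with `n` elements. -/
noncomputable def piStar (T : L.Theory) {k m : ℕ} (φ : L.Formula (Fin k ⊕ Fin m)) (n : ℕ) : ℕ :=
  sSup {t | ∃ (N : Type) (_ : L.Structure N) (_ : Nonempty N) (_ : N ⊨ T)
    (B : Set (Fin m → N)), B.Finite ∧ B.ncard = n ∧ t = typeCount φ B}

/-- The VC-density of `φ` in `T`: the infimum of the `r ≥ 0` with `piStar n = O(n^r)`. -/
noncomputable def vcDensity (T : L.Theory) {k m : ℕ} (φ : L.Formula (Fin k ⊕ Fin m)) : EReal :=
  ⨅ (r : ℝ) (_ : 0 ≤ r)
    (_ : (fun n : ℕ => (piStar T φ n : ℝ)) =O[Filter.atTop] fun n : ℕ => (n : ℝ) ^ r), (r : EReal)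

/-- `T` has low VC-density: every `φ(x; y)` has VC-density at most the length of `x`. -/
def LowVCDensity (T : L.Theory) : Prop :=
  ∀ (k m : ℕ) (φ : L.Formula (Fin k ⊕ Fin m)), vcDensity T φ ≤ ((k : ℝ) : EReal)

end general

/-- The relation symbols: a single ternary one. -/
inductive CRel : ℕ → Type
  | cyc : CRel 3

/-- The language with one ternary relation symbol. -/
def LC : FirstOrder.Language.{0, 0} := ⟨fun _ => Empty, CRel⟩

/-- Countably many disjoint dense cyclic orders, as a structure with the ternary relation `R`. -/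
instance : LC.Structure M where
  funMap := fun f => f.elim
  RelMap := fun {_} r x => match r, x with | CRel.cyc, x => R (x 0) (x 1) (x 2)

end Pool.Agent.Q332.VC
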