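import Pool.Agent.Q332.VC.Cyc2

/-! The structure: countably many dense cyclic orders, its automorphisms and orbits. -/

namespace Pool.Agent.Q332.VC

/-- The domain: pairs of the number of the cycle and a point of the cycle. -/
abbrev M : Type := ℕ × K

/-- The ternary relation: three points of the same cycle, met in this order. -/
def R (u v w : M) : Prop := u.1 = v.1 ∧ v.1 = w.1 ∧ cyc u.2 v.2 w.2

/-- Permutations preserving the relation. -/
def IsA (e : Equiv.Perm M) : Prop := ∀ u v w, R (e u) (e v) (e w) ↔ R u v w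

theorem IsA.refl : IsA (Equiv.refl M) := fun _ _ _ => Iff.rfl

theorem IsA.trans {e f : Equiv.Perm M} (he : IsA e) (hf : IsA f) : IsA (e.trans f) :=
  fun _ _ _ => (hf _ _ _).trans (he _ _ _)

theorem IsA.symm {e : Equiv.Perm M} (he : IsA e) : IsA e.symm := by
  intro x y z
  rw [← he]
  simp

/-- Applying a permutation of one cycle. -/
def one (n : ℕ) (g : Equiv.Perm K) : Equiv.Perm M where
  toFun u := (u.1, if u.1 = n then g u.2 else u.2)
  invFun u := (u.1, if u.1 = n then g.symm u.2 else u.2)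
  left_inv u := by
    by_cases h : u.1 = n <;> simp [h, Prod.ext_iff]
  right_inv u := by
    by_cases h : u.1 = n <;> simp [h, Prod.ext_iff]

theorem one_same (n : ℕ) (g : Equiv.Perm K) (k : K) : one n g (n, k) = (n, g k) := by
  simp [one]

theorem one_other (n : ℕ) (g : Equiv.Perm K) {u : M} (h : u.1 ≠ n) : one n g u = u := by
  simp [one, h]

theorem one_isA (n : ℕ) {g : Equiv.Perm K} (hg : IsC g) : IsA (one n g) := by
  rintro ⟨i, x⟩ ⟨j, y⟩ ⟨l, z⟩
  unfold R
  simp only [one, Equiv.coe_fn_mk]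
  constructor
  · rintro ⟨rfl, rfl, h⟩
    refine ⟨rfl, rfl, ?_⟩
    by_cases hi : i = n
    · simp only [hi, if_true] at h
      exact (hg _ _ _).1 h
    · simpa [hi] using h
  · rintro ⟨rfl, rfl, h⟩
    refine ⟨rfl, rfl, ?_⟩
    by_cases hi : i = n
    · simp only [hi, if_true]
      exact (hg _ _ _).2 h
    · simpa [hi] using h

/-- Exchanging two cycles. -/
def sw (n n' : ℕ) : Equiv.Perm M := (Equiv.swap n n').prodCongr (Equiv.refl K)

theorem sw_isA (n n' : ℕ) : IsA (sw n n') := by
  rintro ⟨i, x⟩ ⟨j, y⟩ ⟨l, z⟩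
  simp [sw, R]

theorem sw_apply (n n' : ℕ) (k : K) : sw n n' (n, k) = (n', k) := by
  simp [sw]

theorem sw_other {n n' : ℕ} {u : M} (h : u.1 ≠ n) (h' : u.1 ≠ n') : sw n n' u = u := by
  rcases u with ⟨i, k⟩
  simp only [sw, Equiv.prodCongr_apply, Prod.map_apply, Equiv.coe_refl, id_eq]
  rw [Equiv.swap_apply_of_ne_of_ne h h']

/-- The points of a finite set on the `n`-th cycle. -/
noncomputable def cls (A : Finset M) (n : ℕ) : Finset K := by
  classical
  exact (A.filter fun u => u.1 = n).image Prod.snd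

theorem mem_cls {A : Finset M} {n : ℕ} {k : K} : k ∈ cls A n ↔ (n, k) ∈ A := by
  classical
  unfold cls
  simp only [Finset.mem_image, Finset.mem_filter]
  constructor
  · rintro ⟨⟨i, x⟩, ⟨h1, h2⟩, h3⟩
    simp only at h2 h3
    rw [← h2, ← h3]
    exact h1
  · intro h
    exact ⟨(n, k), ⟨h, rfl⟩, rfl⟩

/-- An automorphism of one cycle fixing the points of `A` on it fixes all of `A`. -/
theorem one_fix {A : Finset M} {n : ℕ} {g : Equiv.Perm K} (h : ∀ c ∈ cls A n, g c = c) :
    ∀ a ∈ A, one n g a = a := by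
  rintro ⟨i, k⟩ ha
  by_cases hi : i = n
  · subst hi
    rw [one_same, h k (mem_cls.2 ha)]
  · exact one_other n g hi

/-- Over a set of `a` elements there are at most `2a+1` orbits. -/
theorem exists_reps (A : Finset M) :
    ∃ S : Finset M, S.card ≤ 2 * A.card + 1 ∧
      ∀ x, ∃ σ : Equiv.Perm M, IsA σ ∧ (∀ a ∈ A, σ a = a) ∧ σ x ∈ S := by
  classical
  let P : M → M → Prop := fun a x => x ∉ A ∧ x.1 = a.1 ∧ ∀ c ∈ cls A a.1, ¬ cyc a.2 c x.2
  let ρ : M → M := fun a => if h : ∃ x, P a x then h.choose else a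
  have hρ : ∀ a, (∃ x, P a x) → P a (ρ a) := by
    intro a h
    show P a (if h : ∃ x, P a x then h.choose else a)
    rw [dif_pos h]
    exact h.choose_spec
  let Q : M → Prop := fun x => ∀ c ∈ A, c.1 ≠ x.1
  let r₀ : M := if h : ∃ x, Q x then h.choose else (0, ⊤)
  have hr₀ : (∃ x, Q x) → Q r₀ := by
    intro h
    show Q (if h : ∃ x, Q x then h.choose else (0, ⊤))
    rw [dif_pos h]
    exact h.choose_spec
  refine ⟨A ∪ A.image ρ ∪ {r₀}, ?_, fun x => ?_⟩
  · have h1 := Finset.card_union_le (A ∪ A.image ρ) {r₀}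
    have h2 := Finset.card_union_le A (A.image ρ)
    have h3 : (A.image ρ).card ≤ A.card := Finset.card_image_le
    rw [Finset.card_singleton] at h1
    omega
  · by_cases hx : x ∈ A
    · exact ⟨Equiv.refl M, IsA.refl, fun _ _ => rfl, by simp [hx]⟩
    · by_cases hn : (cls A x.1).Nonempty
      · obtain ⟨a, ha, hac⟩ := exists_pred (cls A x.1) hn (x := x.2)
        have haA : (x.1, a) ∈ A := mem_cls.1 ha
        have hP : P (x.1, a) x := ⟨hx, rfl, hac⟩
        obtain ⟨p1, p2, p3⟩ := hρ (x.1, a) ⟨x, hP⟩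
        simp only at p2 p3
        obtain ⟨g, hg, hgA, hgx⟩ := exists_conj (cls A x.1) (a := a) (x := x.2)
          (x' := (ρ (x.1, a)).2) ha (fun h => hx (by simpa using mem_cls.1 h))
          (fun h => p1 (by
            have e : (x.1, (ρ (x.1, a)).2) = ρ (x.1, a) := Prod.ext p2.symm rfl
            rw [mem_cls, e] at h
            exact h)) hac p3
        refine ⟨one x.1 g, one_isA _ hg, one_fix hgA, ?_⟩
        have e : one x.1 g x = ρ (x.1, a) := by
          have : one x.1 g x = (x.1, g x.2) := one_same x.1 g x.2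
          rw [this, hgx]
          exact Prod.ext p2.symm rfl
        rw [e]
        simp only [Finset.mem_union, Finset.mem_image, Finset.mem_singleton]
        exact Or.inl (Or.inr ⟨_, haA, rfl⟩)
      · have hQ : Q x := by
          intro c hc h
          exact hn ⟨c.2, by rw [mem_cls, ← h]; exact hc⟩
        have hQ' := hr₀ ⟨x, hQ⟩
        obtain ⟨g, hg, hgx⟩ := exists_trans x.2 r₀.2
        refine ⟨(one x.1 g).trans (sw x.1 r₀.1), (one_isA _ hg).trans (sw_isA _ _), ?_, ?_⟩
        · intro a ha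
          rw [Equiv.trans_apply, one_other _ _ (hQ a ha), sw_other (hQ a ha) (hQ' a ha)]
        · have : one x.1 g x = (x.1, g x.2) := one_same x.1 g x.2
          rw [Equiv.trans_apply, this, sw_apply, hgx]
          simp

/-- Over a set of `a` elements there are at most `(2(a+k))^k` orbits of `k`-tuples. -/
theorem exists_reps_tuple (k : ℕ) : ∀ A : Finset M,
    ∃ S : Finset (Fin k → M), S.card ≤ (2 * (A.card + k)) ^ k ∧
      ∀ x : Fin k → M, ∃ σ : Equiv.Perm M, IsA σ ∧ (∀ a ∈ A, σ a = a) ∧ (fun i => σ (x i)) ∈ S := by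
  classical
  induction k with
  | zero =>
    intro A
    refine ⟨{fun i => i.elim0}, by simp, fun x => ⟨Equiv.refl M, IsA.refl, fun _ _ => rfl, ?_⟩⟩
    rw [Finset.mem_singleton]
    exact funext fun i => i.elim0
  | succ k ih =>
    intro A
    obtain ⟨S, hS, hSx⟩ := exists_reps A
    choose Rk hRk1 hRk2 using ih
    refine ⟨S.biUnion fun r => (Rk (insert r A)).image (fun v => @Fin.cons k (fun _ => M) r v),
      ?_, fun x => ?_⟩
    · have h1 : ∀ r ∈ S, ((Rk (insert r A)).image (fun v => @Fin.cons k (fun _ => M) r v)).card ≤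
          (2 * (A.card + (k + 1))) ^ k := by
        intro r _
        refine Finset.card_image_le.trans ((hRk1 _).trans ?_)
        refine Nat.pow_le_pow_left ?_ k
        have := Finset.card_insert_le r A
        omega
      refine (Finset.card_biUnion_le.trans (Finset.sum_le_sum h1)).trans ?_
      rw [Finset.sum_const, smul_eq_mul, pow_succ, mul_comm]
      refine Nat.mul_le_mul_left _ (hS.trans ?_)
      omega
    · obtain ⟨σ, h1, h2, h3⟩ := hSx (x 0)
      obtain ⟨τ, k1, k2, k3⟩ := hRk2 (insert (σ (x 0)) A) (fun i => σ (x i.succ))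
      refine ⟨σ.trans τ, h1.trans k1, fun a ha => ?_, ?_⟩
      · rw [Equiv.trans_apply, h2 a ha]
        exact k2 a (Finset.mem_insert_of_mem ha)
      · rw [Finset.mem_biUnion]
        refine ⟨σ (x 0), h3, Finset.mem_image.2 ⟨_, k3, ?_⟩⟩
        funext i
        refine Fin.cases ?_ (fun j => ?_) i
        · rw [Fin.cons_zero, Equiv.trans_apply]
          exact (k2 _ (Finset.mem_insert_self _ _)).symm
        · rw [Fin.cons_succ, Equiv.trans_apply]

/-- Pairwise non-conjugate tuples are few. -/
theorem card_nonconj {I : Type} [Fintype I] {k : ℕ} (A : Finset M) (a : I → Fin k → M)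
    (h : ∀ i i', i ≠ i' → ∀ σ : Equiv.Perm M, IsA σ → (∀ c ∈ A, σ c = c) →
      (fun s => σ (a i s)) ≠ a i') :
    Fintype.card I ≤ (2 * (A.card + k)) ^ k := by
  classical
  obtain ⟨S, hS, hSx⟩ := exists_reps_tuple k A
  choose σ h1 h2 h3 using fun i => hSx (a i)
  refine le_trans ?_ hS
  rw [← Finset.card_univ]
  refine Finset.card_le_card_of_injOn (fun i s => σ i (a i s)) (fun i _ => h3 i) ?_
  intro i _ i' _ hii
  by_contra hne
  refine h i i' hne ((σ i).trans (σ i').symm) ((h1 i).trans (h1 i').symm) (fun c hc => ?_) ?_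
  · rw [Equiv.trans_apply, h2 i c hc, Equiv.symm_apply_eq, h2 i' c hc]
  · funext s
    have := congrFun hii s
    simp only at this
    rw [Equiv.trans_apply, this, Equiv.symm_apply_apply]

end Pool.Agent.Q332.VC
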