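import Pool.Agent.Q332.VC.Transfer

/-! The structure is not weakly VC-minimal, even with named parameters missing one cycle. -/

open FirstOrder FirstOrder.Language

namespace Pool.Agent.Q332.VC

/-- A point of the `n`-th cycle as a tuple of length one. -/
def pt (n : ℕ) (k : K) : Fin 1 → M := fun _ => (n, k)

/-- The language `L'` on `M` is invariant under the automorphisms fixing `A` pointwise. -/
def Inv (L' : FirstOrder.Language.{0, 0}) [L'.Structure M] (A : Set M) : Prop :=
  ∀ σ : Equiv.Perm M, IsA σ → (∀ a ∈ A, σ a = a) → ∃ e : M ≃[L'] M, ∀ x, e x = σ x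

/-- The trace of a set of tuples of length one on the `n`-th cycle. -/
def tr (n : ℕ) (D : Set (Fin 1 → M)) : Set K := {k | pt n k ∈ D}

theorem mem_tr {n : ℕ} {D : Set (Fin 1 → M)} {k : K} : k ∈ tr n D ↔ pt n k ∈ D := Iff.rfl

theorem indep_pair {X : Type} {D D' : Set X} {a b c d : X} (ha : a ∈ D ∧ a ∈ D')
    (hb : b ∈ D ∧ b ∉ D') (hc : c ∉ D ∧ c ∈ D') (hd : d ∉ D ∧ d ∉ D') :
    Indep ({D, D'} : Set (Set X)) := by
  intro s
  have key : ∀ x : X, (if s D then x ∈ D else x ∉ D) → (if s D' then x ∈ D' else x ∉ D') →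
      x ∈ ⋂ B ∈ ({D, D'} : Set (Set X)), if s B then B else Bᶜ := by
    intro x h1 h2
    simp only [Set.mem_iInter]
    intro B hB
    rcases hB with rfl | hB
    · by_cases hs : s B = true
      · rw [if_pos hs] at h1 ⊢; exact h1
      · rw [if_neg hs] at h1 ⊢; exact h1
    · rw [Set.mem_singleton_iff.1 hB]
      by_cases hs : s D' = true
      · rw [if_pos hs] at h2 ⊢; exact h2
      · rw [if_neg hs] at h2 ⊢; exact h2
  by_cases h1 : s D = true <;> by_cases h2 : s D' = true
  · exact ⟨a, key a (by rw [if_pos h1]; exact ha.1) (by rw [if_pos h2]; exact ha.2)⟩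
  · exact ⟨b, key b (by rw [if_pos h1]; exact hb.1) (by rw [if_neg h2]; exact hb.2)⟩
  · exact ⟨c, key c (by rw [if_neg h1]; exact hc.1) (by rw [if_pos h2]; exact hc.2)⟩
  · exact ⟨d, key d (by rw [if_neg h1]; exact hd.1) (by rw [if_neg h2]; exact hd.2)⟩

section main

variable {L' : FirstOrder.Language.{0, 0}} [L'.Structure M] {T' : L'.Theory} [M ⊨ T']
  {A : Set M} {n : ℕ}

omit [M ⊨ T'] in
/-- Moving an instance by an automorphism of one cycle. -/
theorem inst_one (hI : Inv L' A) (hA : ∀ a ∈ A, a.1 ≠ n) {l : ℕ}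
    (ψ : L'.Formula (Fin 1 ⊕ Fin l)) (c : Fin l → M) {g : Equiv.Perm K} (hg : IsC g) (k : K) :
    pt n (g k) ∈ inst ψ (fun s => one n g (c s)) ↔ pt n k ∈ inst ψ c := by
  obtain ⟨e, he⟩ := hI (one n g) (one_isA n hg) fun a ha => one_other n g (hA a ha)
  have h := inst_equiv e ψ (pt n k) c
  have h1 : (fun s => e (pt n k s)) = pt n (g k) := by
    funext s
    rw [he]
    exact one_same n g k
  have h2 : (fun s => e (c s)) = fun s => one n g (c s) := by
    funext s
    exact he _
  rw [h1, h2] at h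
  exact h

/-- An instance of a formula of independence dimension at most one is finite or cofinite on
every cycle without named points. -/
theorem finite_or_cofinite (hI : Inv L' A) (hA : ∀ a ∈ A, a.1 ≠ n) {l : ℕ}
    (ψ : L'.Formula (Fin 1 ⊕ Fin l)) (hψ : IndepDimLE T' ψ 1)
    (c : Fin l → M) : (tr n (inst ψ c)).Finite ∨ (tr n (inst ψ c))ᶜ.Finite := by
  classical
  by_contra hcon
  push Not at hcon
  obtain ⟨hi, hi'⟩ := hcon
  let Cn : Finset K := cls (Finset.univ.image c) n
  have hfix : ∀ g : Equiv.Perm K, (∀ z ∈ Cn, g z = z) → (fun s => one n g (c s)) = c := by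
    intro g hg
    funext s
    exact one_fix hg _ (Finset.mem_image_of_mem _ (Finset.mem_univ s))
  obtain ⟨x, hx, hxC⟩ := Set.Infinite.exists_notMem_finset hi Cn
  obtain ⟨y, hy, hyC⟩ := Set.Infinite.exists_notMem_finset hi' Cn
  have hxy : x ≠ y := fun h => hy (h ▸ hx)
  obtain ⟨q, _, hxqy, g1, hg1, hg1f, hg1x⟩ := exists_next (insert y Cn) (x := x) (y := y)
    (Finset.mem_insert_self _ _) (by
      rw [Finset.mem_insert]
      rintro (h | h)
      · exact hxy h
      · exact hxC h)
  obtain ⟨s, _, hysx, g2, hg2, hg2f, hg2y⟩ := exists_next (insert x Cn) (x := y) (y := x)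
    (Finset.mem_insert_self _ _) (by
      rw [Finset.mem_insert]
      rintro (h | h)
      · exact hxy h.symm
      · exact hyC h)
  have hx' : pt n x ∈ inst ψ c := hx
  have hy' : pt n y ∉ inst ψ c := hy
  have hq' : pt n q ∈ inst ψ c := by
    have h := inst_one hI hA ψ c hg1 x
    rw [hfix g1 fun z hz => hg1f z (Finset.mem_insert_of_mem hz), hg1x] at h
    exact h.2 hx'
  have hs' : pt n s ∉ inst ψ c := by
    have h := inst_one hI hA ψ c hg2 y
    rw [hfix g2 fun z hz => hg2f z (Finset.mem_insert_of_mem hz), hg2y] at h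
    exact fun h' => hy' (h.1 h')
  obtain ⟨g, hg, gx, gq, gy, gs⟩ := exists_rotate hxqy hysx
  have kx := inst_one hI hA ψ c hg x
  have kq := inst_one hI hA ψ c hg q
  have ky := inst_one hI hA ψ c hg y
  have ks := inst_one hI hA ψ c hg s
  rw [gx] at kx
  rw [gq] at kq
  rw [gy] at ky
  rw [gs] at ks
  set D : Set (Fin 1 → M) := inst ψ c with hD
  set D' : Set (Fin 1 → M) := inst ψ (fun s => one n g (c s)) with hD'
  have hq2 : pt n q ∈ D' := kx.2 hx'
  have hy2 : pt n y ∈ D' := kq.2 hq'
  have hs2 : pt n s ∉ D' := fun h => hy' (ky.1 h)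
  have hx2 : pt n x ∉ D' := fun h => hs' (ks.1 h)
  have hind : Indep ({D, D'} : Set (Set (Fin 1 → M))) :=
    indep_pair ⟨hq', hq2⟩ ⟨hx', hx2⟩ ⟨hy', hy2⟩ ⟨hs', hs2⟩
  have hne : D ≠ D' := fun h => hx2 (h ▸ hx')
  have : Nonempty M := ⟨(0, ⊤)⟩
  have hcard := hψ M {D, D'} (by
    rintro B (rfl | hB)
    · exact ⟨c, rfl⟩
    · rw [Set.mem_singleton_iff.1 hB]
      exact ⟨_, rfl⟩) hind
  rw [Set.encard_pair hne] at hcard
  exact absurd hcard (by norm_num)

omit [L'.Structure M] [M ⊨ T'] in
theorem boolComb_finite {𝒢 : Set (Set (Fin 1 → M))}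
    (h𝒢 : ∀ D ∈ 𝒢, (tr n D).Finite ∨ (tr n D)ᶜ.Finite) {D : Set (Fin 1 → M)}
    (hD : BoolComb 𝒢 D) : (tr n D).Finite ∨ (tr n D)ᶜ.Finite := by
  induction hD with
  | basic h => exact h𝒢 _ h
  | univ =>
    right
    have : (tr n Set.univ)ᶜ = ∅ := by
      ext k
      simp [tr]
    rw [this]
    exact Set.finite_empty
  | @compl B _ ih =>
    have : tr n Bᶜ = (tr n B)ᶜ := rfl
    rw [this, compl_compl]
    exact ih.symm
  | @inter B C _ _ ih1 ih2 =>
    have : tr n (B ∩ C) = tr n B ∩ tr n C := rfl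
    rw [this]
    rcases ih1 with h | h
    · exact Or.inl (h.subset Set.inter_subset_left)
    · rcases ih2 with h' | h'
      · exact Or.inl (h'.subset Set.inter_subset_right)
      · right
        rw [Set.compl_inter]
        exact h.union h'

/-- The main negative result, for any invariant language in which the relation is definable. -/
theorem not_weak (hI : Inv L' A) (hA : ∀ a ∈ A, a.1 ≠ n) (φ : L'.Formula (Fin 1 ⊕ Fin 2))
    (hφ : ∀ (a : Fin 1 → M) (b : Fin 2 → M), a ∈ inst φ b ↔ R (b 0) (a 0) (b 1)) :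
    ¬ WeaklyVCMinimal T' := by
  intro hW
  have : Nonempty M := ⟨(0, ⊤)⟩
  let b : Fin 2 → M := ![(n, ⊤), (n, ((0 : ℚ) : K))]
  have h1 := hW M 2 φ b
  have h2 := boolComb_finite (n := n) (fun D hD => by
    obtain ⟨l, ψ, c, hψ, rfl⟩ := hD
    exact finite_or_cofinite hI hA ψ hψ c) h1
  have htr : ∀ k : K, k ∈ tr n (inst φ b) ↔ k < ((0 : ℚ) : K) := by
    intro k
    rw [mem_tr, hφ]
    show (n = n ∧ n = n ∧ cyc ⊤ k ((0 : ℚ) : K)) ↔ _
    rw [cyc_top_left_iff]
    constructor
    · rintro ⟨_, _, h, _⟩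
      exact h
    · intro h
      exact ⟨rfl, rfl, h, WithTop.coe_ne_top⟩
  rcases h2 with h2 | h2
  · refine Set.infinite_of_injective_forall_mem (f := fun m : ℕ => ((-(m + 1 : ℚ) : ℚ) : K)) ?_ ?_ h2
    · intro m m' h
      have h3 : (-(m + 1 : ℚ)) = -(m' + 1 : ℚ) := WithTop.coe_injective h
      have h4 : (m : ℚ) = m' := by linarith
      exact_mod_cast h4
    · intro m
      rw [htr, WithTop.coe_lt_coe]
      have : (0:ℚ) ≤ m := Nat.cast_nonneg m
      linarith
  · refine Set.infinite_of_injective_forall_mem (f := fun m : ℕ => (((m : ℚ) : ℚ) : K)) ?_ ?_ h2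
    · intro m m' h
      have h3 : (m : ℚ) = (m' : ℚ) := WithTop.coe_injective h
      exact_mod_cast h3
    · intro m
      rw [Set.mem_compl_iff, htr, WithTop.coe_lt_coe]
      have : (0:ℚ) ≤ m := Nat.cast_nonneg m
      linarith

end main

theorem inv_LC (A : Set M) : Inv LC A := fun σ hσ _ => ⟨toEquiv σ hσ, fun _ => rfl⟩

/-- The formula `y₀, x, y₁ are met in this order`. -/
def arc : LC.Formula (Fin 1 ⊕ Fin 2) :=
  Relations.formula (L := LC) (CRel.cyc : LC.Relations 3)
    ![Term.var (Sum.inr 0), Term.var (Sum.inl 0), Term.var (Sum.inr 1)]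

theorem mem_arc (a : Fin 1 → M) (b : Fin 2 → M) : a ∈ inst arc b ↔ R (b 0) (a 0) (b 1) := by
  unfold inst arc
  rw [Set.mem_ofPred_eq, Formula.realize_rel]
  rfl

/-- The embedding of the structure in itself onto the cycles of even number. -/
def iota : M ↪[LC] M where
  toFun u := (2 * u.1, u.2)
  inj' := by
    rintro ⟨i, x⟩ ⟨j, y⟩ h
    simp only [Prod.mk.injEq] at h
    exact Prod.ext (by omega) h.2
  map_fun' := fun f => f.elim
  map_rel' := fun {_} r x => by
    cases r
    show R (2 * (x 0).1, (x 0).2) (2 * (x 1).1, (x 1).2) (2 * (x 2).1, (x 2).2) ↔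
      R (x 0) (x 1) (x 2)
    unfold R
    simp

theorem iota_apply (u : M) : iota u = (2 * u.1, u.2) := rfl

/-- The embedding is elementary, by the test of Tarski and Vaught. -/
theorem iota_elementary : ∀ {n : ℕ} (φ : LC.Formula (Fin n)) (x : Fin n → M),
    φ.Realize (iota ∘ x) ↔ φ.Realize x := by
  refine iota.isElementary_of_exists fun n φ x a h => ?_
  by_cases ha : ∃ i, a.1 = 2 * i
  · obtain ⟨i, hi⟩ := ha
    refine ⟨(i, a.2), ?_⟩
    have : iota (i, a.2) = a := by
      rw [iota_apply]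
      exact Prod.ext hi.symm rfl
    rw [this]
    exact h
  · obtain ⟨i, hi⟩ := Infinite.exists_notMem_finset (Finset.univ.image fun s => (x s).1)
    have hi' : ∀ s, (x s).1 ≠ i := fun s hs =>
      hi (Finset.mem_image.2 ⟨s, Finset.mem_univ _, hs⟩)
    refine ⟨(i, a.2), ?_⟩
    have e := StrongHomClass.realize_boundedFormula (toEquiv (sw a.1 (2 * i)) (sw_isA _ _)) φ
      (v := default) (xs := (Fin.snoc (iota ∘ x) a : Fin (n + 1) → M))
    have h0 : ∀ (w w' : Empty → M) (y : Fin (n + 1) → M), φ.Realize w y → φ.Realize w' y :=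
      fun w w' y hh => by rwa [Subsingleton.elim w' w]
    replace h := e.2 (h0 _ _ _ h)
    have h1 : ((toEquiv (sw a.1 (2 * i)) (sw_isA _ _)) ∘ (default : Empty → M)) = default :=
      Subsingleton.elim _ _
    have h2 : ((toEquiv (sw a.1 (2 * i)) (sw_isA _ _)) ∘
        (Fin.snoc (iota ∘ x) a : Fin (n + 1) → M)) = Fin.snoc (iota ∘ x) (iota (i, a.2)) := by
      funext s
      refine Fin.lastCases ?_ (fun t => ?_) s
      · rw [Function.comp_apply, Fin.snoc_last, Fin.snoc_last]
        exact sw_apply a.1 (2 * i) a.2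
      · rw [Function.comp_apply, Fin.snoc_castSucc, Fin.snoc_castSucc, Function.comp_apply]
        refine sw_other (fun h3 => ha ⟨(x t).1, h3.symm⟩) (fun h3 => hi' t ?_)
        have h4 : 2 * (x t).1 = 2 * i := h3
        omega
    rw [h1, h2] at h
    exact h0 _ _ _ h

/-- The elementary self-embedding. -/
def iotaE : M ↪ₑ[LC] M := ⟨iota, fun _ => iota_elementary⟩

/-- The structure with the named elements moved onto the cycles of even number. -/
@[reducible] def shS (A : Set M) : LC[[A]].Structure M :=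
  @withConstantsStructure LC M _ A (constantsOn.structure (fun a : A => iota a))

theorem shS_model (A : Set M) :
    @Theory.Model LC[[A]] M (shS A) (LC[[A]].completeTheory M) := by
  refine @Theory.Model.mk LC[[A]] M (shS A) _ fun φ hφ => ?_
  have h1 : (Formula.equivSentence.symm φ).Realize (fun a : A => (a : M)) := by
    rw [Formula.realize_equivSentence_symm]
    exact hφ
  have h2 := (iotaE.map_formula (Formula.equivSentence.symm φ) (fun a : A => (a : M))).2 h1
  exact (Formula.realize_equivSentence_symm M φ (fun a : A => iota a)).1 h2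

theorem shS_inv (A : Set M) :
    @Inv LC[[A]] (shS A) (Set.range fun a : A => iota a) := by
  intro σ hσ hA
  refine ⟨@FirstOrder.Language.Equiv.mk LC[[A]] M M (shS A) (shS A) σ ?_ ?_, fun _ => rfl⟩
  · intro k f x
    rcases f with f | f
    · exact f.elim
    · match k, f with
      | 0, f => exact hA _ ⟨f, rfl⟩
      | (k + 1), f => exact isEmptyElim f
  · intro k r x
    rcases r with r | r
    · cases r
      exact hσ _ _ _
    · exact r.elim

theorem shS_arc (A : Set M) (a : Fin 1 → M) (b : Fin 2 → M) :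
    a ∈ @inst LC[[A]] 1 (Fin 2) M (shS A) ((LC.lhomWithConstants A).onFormula arc) b ↔
      R (b 0) (a 0) (b 1) := by
  rw [← mem_arc]
  exact @LHom.realize_onFormula LC LC[[A]] M _ _ (shS A) (LC.lhomWithConstants A)
    (@withConstants_expansion LC M _ A (constantsOn.structure (fun a : A => iota a))) arc
    (Sum.elim a b)

/-- With any set of elements named, the theory is not weakly VC-minimal. -/
theorem not_weak_params (A : Set M) : ¬ WeaklyVCMinimal (LC[[A]].completeTheory M) := by
  refine @not_weak LC[[A]] (shS A) (LC[[A]].completeTheory M) (shS_model A)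
    (Set.range fun a : A => iota a) 1 (shS_inv A) ?_
    ((LC.lhomWithConstants A).onFormula arc) (shS_arc A)
  rintro _ ⟨a, rfl⟩
  show 2 * a.1.1 ≠ 1
  omega

theorem main : (LC.completeTheory M).IsComplete ∧ LowVCDensity (LC.completeTheory M) ∧
    DpMinimal (LC.completeTheory M) ∧ ¬ WeaklyVCMinimal (LC.completeTheory M) ∧
    ∀ A : Set M, ¬ WeaklyVCMinimal (LC[[A]].completeTheory M) := by
  have : Nonempty M := ⟨(0, ⊤)⟩
  refine ⟨completeTheory.isComplete LC M, lowVCDensity, dpMinimal, ?_, not_weak_params⟩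
  exact not_weak (A := ∅) (n := 0) (inv_LC ∅) (by simp) arc mem_arc

end Pool.Agent.Q332.VC
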