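import Pool.Agent.Q332.VC.Defs

/-! Transfer of finite truth tables between models, and counting of types. -/

open FirstOrder FirstOrder.Language

namespace Pool.Agent.Q332.VC

section transfer

variable {L : FirstOrder.Language.{0, 0}}

/-- Satisfiability of a formula transfers between elementarily equivalent structures. -/
theorem transfer_formula {M₁ N : Type} [L.Structure M₁] [L.Structure N]
    (h : N ⊨ L.completeTheory M₁) {V : Type} [Finite V] (Φ : L.Formula V)
    (hN : ∃ v : V → N, Φ.Realize v) : ∃ v : V → M₁, Φ.Realize v := by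
  let Ψ : L.Sentence := Formula.iExs V (Φ.relabel (Sum.inr : V → Empty ⊕ V))
  have key : ∀ (P : Type) [L.Structure P], P ⊨ Ψ ↔ ∃ v : V → P, Φ.Realize v := by
    intro P _
    show (Formula.iExs V (Φ.relabel (Sum.inr : V → Empty ⊕ V))).Realize (default : Empty → P) ↔ _
    rw [Formula.realize_iExs]
    refine exists_congr fun v => ?_
    rw [Formula.realize_relabel]
    rfl
  rw [← key M₁]
  by_contra hM
  have h1 : Formula.not Ψ ∈ L.completeTheory M₁ := by
    rw [mem_completeTheory]
    exact (Sentence.realize_not (M := M₁)).2 hM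
  have h2 : N ⊨ Formula.not Ψ := h.realize_of_mem _ h1
  rw [Sentence.realize_not] at h2
  exact h2 ((key N).2 hN)

/-- Finite truth tables transfer. -/
theorem transfer_table {M₁ N : Type} [L.Structure M₁] [L.Structure N]
    (h : N ⊨ L.completeTheory M₁) {k : ℕ} {β I J : Type} [Finite β] [Finite I] [Finite J]
    (φ : J → L.Formula (Fin k ⊕ β)) (X : I → J → Prop)
    (hN : ∃ (a : I → Fin k → N) (b : J → β → N), ∀ i j, a i ∈ inst (φ j) (b j) ↔ X i j) :
    ∃ (a : I → Fin k → M₁) (b : J → β → M₁), ∀ i j, a i ∈ inst (φ j) (b j) ↔ X i j := by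
  classical
  let f : I × J → Fin k ⊕ β → (I × Fin k) ⊕ (J × β) := fun p =>
    Sum.map (fun s => (p.1, s)) (fun s => (p.2, s))
  let Φ : L.Formula ((I × Fin k) ⊕ (J × β)) := Formula.iInf (fun p : I × J =>
    if X p.1 p.2 then (φ p.2).relabel (f p) else Formula.not ((φ p.2).relabel (f p)))
  have key : ∀ (P : Type) [L.Structure P] (v : (I × Fin k) ⊕ (J × β) → P), Φ.Realize v ↔
      ∀ i j, (fun s => v (Sum.inl (i, s))) ∈ inst (φ j) (fun s => v (Sum.inr (j, s))) ↔ X i j := by
    intro P _ v
    show (Formula.iInf _).Realize v ↔ _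
    rw [Formula.realize_iInf]
    have e : ∀ i j, ((φ j).relabel (f (i, j))).Realize v ↔
        (fun s => v (Sum.inl (i, s))) ∈ inst (φ j) (fun s => v (Sum.inr (j, s))) := by
      intro i j
      rw [Formula.realize_relabel]
      unfold inst
      rw [Set.mem_ofPred_eq]
      have : v ∘ f (i, j) = Sum.elim (fun s => v (Sum.inl (i, s))) (fun s => v (Sum.inr (j, s))) := by
        funext s
        rcases s with s | s <;> rfl
      rw [this]
    constructor
    · intro hh i j
      have := hh (i, j)
      simp only at this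
      by_cases hX : X i j
      · rw [if_pos hX, e] at this
        exact ⟨fun _ => hX, fun _ => this⟩
      · rw [if_neg hX, Formula.realize_not, e] at this
        exact ⟨fun h' => absurd h' this, fun h' => absurd h' hX⟩
    · rintro hh ⟨i, j⟩
      simp only
      by_cases hX : X i j
      · rw [if_pos hX, e]
        exact (hh i j).2 hX
      · rw [if_neg hX, Formula.realize_not, e]
        exact fun h' => hX ((hh i j).1 h')
  obtain ⟨a, b, hab⟩ := hN
  obtain ⟨v, hv⟩ := transfer_formula h Φ ⟨Sum.elim (fun p => a p.1 p.2) (fun p => b p.1 p.2), by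
    rw [key]
    exact hab⟩
  rw [key] at hv
  exact ⟨_, _, hv⟩

end transfer

/-- Automorphisms of the structure as language equivalences. -/
def toEquiv (σ : Equiv.Perm M) (hσ : IsA σ) : M ≃[LC] M where
  toEquiv := σ
  map_fun' := fun f => f.elim
  map_rel' := fun {_} r x => by
    cases r
    exact hσ _ _ _

theorem inst_equiv {L' : FirstOrder.Language.{0, 0}} [L'.Structure M] (e : M ≃[L'] M) {k : ℕ}
    {β : Type} (φ : L'.Formula (Fin k ⊕ β)) (a : Fin k → M) (b : β → M) :
    (fun s => e (a s)) ∈ inst φ (fun s => e (b s)) ↔ a ∈ inst φ b := by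
  unfold inst
  rw [Set.mem_ofPred_eq, Set.mem_ofPred_eq, ← StrongHomClass.realize_formula e φ (v := Sum.elim a b)]
  have : (e ∘ Sum.elim a b : Fin k ⊕ β → M) = Sum.elim (fun s => e (a s)) (fun s => e (b s)) := by
    funext s
    rcases s with s | s <;> rfl
  rw [this]

/-- The basic counting bound: a truth table with pairwise distinct rows has few rows. -/
theorem count {N : Type} [LC.Structure N] (h : N ⊨ LC.completeTheory M) {k : ℕ} {β I J : Type}
    [Fintype β] [Fintype I] [Fintype J] (φ : J → LC.Formula (Fin k ⊕ β)) (X : I → J → Prop)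
    (hX : ∀ i i', i ≠ i' → ∃ j, ¬ (X i j ↔ X i' j))
    (hN : ∃ (a : I → Fin k → N) (b : J → β → N), ∀ i j, a i ∈ inst (φ j) (b j) ↔ X i j) :
    Fintype.card I ≤ (2 * (Fintype.card J * Fintype.card β + k)) ^ k := by
  classical
  obtain ⟨a, b, hab⟩ := transfer_table h φ X hN
  let A : Finset M := Finset.univ.image (fun p : J × β => b p.1 p.2)
  have hA : A.card ≤ Fintype.card J * Fintype.card β := by
    refine Finset.card_image_le.trans ?_
    rw [Finset.card_univ, Fintype.card_prod]
  refine (card_nonconj A a fun i i' hne σ hσ hfix heq => ?_).trans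
    (Nat.pow_le_pow_left (by omega) k)
  obtain ⟨j, hj⟩ := hX i i' hne
  apply hj
  have hb : (fun s => toEquiv σ hσ (b j s)) = b j := by
    funext s
    exact hfix _ (Finset.mem_image.2 ⟨(j, s), Finset.mem_univ _, rfl⟩)
  have h1 := inst_equiv (toEquiv σ hσ) (φ j) (a i) (b j)
  rw [hb] at h1
  have h2 : (fun s => toEquiv σ hσ (a i s)) = a i' := heq
  rw [h2] at h1
  rw [← hab i j, ← hab i' j]
  exact h1.symm

theorem typeCount_le {N : Type} [LC.Structure N] (h : N ⊨ LC.completeTheory M) {k m : ℕ}
    (φ : LC.Formula (Fin k ⊕ Fin m)) (B : Set (Fin m → N)) (hB : B.Finite) :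
    typeCount φ B ≤ (2 * (B.ncard * m + k)) ^ k := by
  classical
  set P : Set (Set (Fin m → N)) := {p | ∃ a : Fin k → N, p = {b | b ∈ B ∧ a ∈ inst φ b}} with hP
  have hPf : P.Finite := by
    refine hB.finite_subsets.subset ?_
    rintro p ⟨a, rfl⟩ b hb
    exact hb.1
  have : Fintype P := hPf.fintype
  have : Fintype B := hB.fintype
  have h1 : typeCount φ B = Fintype.card P := by
    unfold typeCount
    rw [← hP, Set.ncard_eq_toFinset_card', Set.toFinset_card]
  have h2 : B.ncard = Fintype.card B := by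
    rw [Set.ncard_eq_toFinset_card', Set.toFinset_card]
  rw [h1, h2]
  have h3 := count h (I := P) (J := B) (β := Fin m) (k := k) (fun _ => φ)
    (fun p b => (b : Fin m → N) ∈ (p : Set (Fin m → N))) ?_ ?_
  · simpa using h3
  · intro p p' hne
    by_contra hcon
    push Not at hcon
    apply hne
    apply Subtype.ext
    obtain ⟨a, ha⟩ := p.2
    obtain ⟨a', ha'⟩ := p'.2
    ext b
    constructor
    · intro hb
      have hbB : b ∈ B := by rw [ha] at hb; exact hb.1
      exact (hcon ⟨b, hbB⟩).1 hb
    · intro hb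
      have hbB : b ∈ B := by rw [ha'] at hb; exact hb.1
      exact (hcon ⟨b, hbB⟩).2 hb
  · refine ⟨fun p => p.2.choose, fun b => b.1, fun p b => ?_⟩
    have h4 := p.2.choose_spec
    constructor
    · intro h5
      rw [h4]
      exact ⟨b.2, h5⟩
    · intro h5
      rw [h4] at h5
      exact h5.2

theorem piStar_le {k m : ℕ} (φ : LC.Formula (Fin k ⊕ Fin m)) (n : ℕ) :
    piStar (LC.completeTheory M) φ n ≤ (2 * (n * m + k)) ^ k := by
  unfold piStar
  by_cases hne : {t | ∃ (N : Type) (_ : LC.Structure N) (_ : Nonempty N)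
      (_ : N ⊨ LC.completeTheory M) (B : Set (Fin m → N)), B.Finite ∧ B.ncard = n ∧
      t = typeCount φ B}.Nonempty
  · refine csSup_le hne ?_
    rintro t ⟨N, i1, i2, i3, B, h1, h2, rfl⟩
    have := typeCount_le i3 φ B h1
    rw [h2] at this
    exact this
  · rw [Set.not_nonempty_iff_eq_empty.1 hne]
    simp

theorem lowVCDensity : LowVCDensity (LC.completeTheory M) := by
  intro k m φ
  unfold vcDensity
  have h0 : (0:ℝ) ≤ (k : ℝ) := Nat.cast_nonneg k
  have hO : (fun n : ℕ => (piStar (LC.completeTheory M) φ n : ℝ)) =O[Filter.atTop]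
      fun n : ℕ => (n : ℝ) ^ (k : ℝ) := by
    refine Asymptotics.IsBigO.of_bound ((2 * (m + k : ℝ)) ^ k) ?_
    filter_upwards [Filter.eventually_ge_atTop 1] with n hn
    have h1 : piStar (LC.completeTheory M) φ n ≤ (2 * (m + k)) ^ k * n ^ k := by
      refine (piStar_le φ n).trans ?_
      rw [← mul_pow]
      refine Nat.pow_le_pow_left ?_ k
      nlinarith [Nat.zero_le k, Nat.zero_le m]
    have h2 : (piStar (LC.completeTheory M) φ n : ℝ) ≤ (2 * (m + k : ℝ)) ^ k * (n : ℝ) ^ k := by
      exact_mod_cast h1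
    rw [Real.norm_of_nonneg (Nat.cast_nonneg _), Real.norm_of_nonneg (by positivity),
      Real.rpow_natCast]
    exact h2
  exact iInf_le_of_le (k : ℝ) (iInf_le_of_le h0 (iInf_le_of_le hO le_rfl))

theorem dpMinimal : DpMinimal (LC.completeTheory M) := by
  classical
  intro N _ _ hN m l φ ψ b c hcon
  let q : ℕ := 4 * (m + l) + 3
  have hq : q = 4 * (m + l) + 3 := rfl
  choose a ha1 ha2 ha3 ha4 using hcon
  let Φ : Fin q ⊕ Fin q → LC.Formula (Fin 1 ⊕ (Fin m ⊕ Fin l)) := fun j => match j with
    | Sum.inl _ => φ.relabel (Sum.map id Sum.inl)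
    | Sum.inr _ => ψ.relabel (Sum.map id Sum.inr)
  let X : Fin q × Fin q → Fin q ⊕ Fin q → Prop := fun p j => match j with
    | Sum.inl j => p.1 = j
    | Sum.inr j => p.2 = j
  have e1 : ∀ (x : Fin 1 → N) (y : Fin m → N) (z : Fin l → N),
      x ∈ inst (φ.relabel (Sum.map id Sum.inl) : LC.Formula (Fin 1 ⊕ (Fin m ⊕ Fin l)))
        (Sum.elim y z) ↔ x ∈ inst φ y := by
    intro x y z
    unfold inst
    rw [Set.mem_ofPred_eq, Set.mem_ofPred_eq, Formula.realize_relabel]
    have : (Sum.elim x (Sum.elim y z)) ∘ (Sum.map id Sum.inl : Fin 1 ⊕ Fin m → _) =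
        Sum.elim x y := by
      funext s
      rcases s with s | s <;> rfl
    rw [this]
  have e2 : ∀ (x : Fin 1 → N) (y : Fin m → N) (z : Fin l → N),
      x ∈ inst (ψ.relabel (Sum.map id Sum.inr) : LC.Formula (Fin 1 ⊕ (Fin m ⊕ Fin l)))
        (Sum.elim y z) ↔ x ∈ inst ψ z := by
    intro x y z
    unfold inst
    rw [Set.mem_ofPred_eq, Set.mem_ofPred_eq, Formula.realize_relabel]
    have : (Sum.elim x (Sum.elim y z)) ∘ (Sum.map id Sum.inr : Fin 1 ⊕ Fin l → _) =
        Sum.elim x z := by
      funext s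
      rcases s with s | s <;> rfl
    rw [this]
  have h := count hN Φ X ?_ ?_
  · simp only [Fintype.card_prod, Fintype.card_fin, Fintype.card_sum, pow_one] at h
    rw [hq] at h
    nlinarith
  · rintro ⟨i, i'⟩ ⟨j, j'⟩ hne
    by_cases h1 : i = j
    · refine ⟨Sum.inr i', ?_⟩
      show ¬ (i' = i' ↔ j' = i')
      intro h2
      exact hne (Prod.ext h1 (h2.1 rfl).symm)
    · refine ⟨Sum.inl i, ?_⟩
      show ¬ (i = i ↔ j = i)
      intro h2
      exact h1 (h2.1 rfl).symm
  · let F : Finset ℕ := Finset.range q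
    refine ⟨fun p => a p.1 p.2 F, fun j => match j with
      | Sum.inl j => Sum.elim (b j) (c j)
      | Sum.inr j => Sum.elim (b j) (c j), ?_⟩
    rintro ⟨i, i'⟩ (j | j)
    · show a i i' F ∈ inst (φ.relabel (Sum.map id Sum.inl)) (Sum.elim (b j) (c j)) ↔ i = j
      rw [e1]
      constructor
      · intro h1
        by_contra hne
        exact ha3 i i' F j (Finset.mem_range.2 j.2) (fun h2 => hne (Fin.ext h2.symm)) h1
      · rintro rfl
        exact ha1 i i' F
    · show a i i' F ∈ inst (ψ.relabel (Sum.map id Sum.inr)) (Sum.elim (b j) (c j)) ↔ i' = j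
      rw [e2]
      constructor
      · intro h1
        by_contra hne
        exact ha4 i i' F j (Finset.mem_range.2 j.2) (fun h2 => hne (Fin.ext h2.symm)) h1
      · rintro rfl
        exact ha2 i i' F

end Pool.Agent.Q332.VC
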